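import Pool.Agent.FermD.Main

/-!
# The Hodge classes on the Fermat varieties

Let `X` be the Fermat variety of degree `m` and dimension `n`. Its primitive cohomology is the sum
of lines `V(s)`, `s` a family of `n + 2` nonzero elements of `ZMod m` with sum zero, and `V(s)`
consists of Hodge classes if and only if `s` is in `Pool.Agent.FermD.IsHodge` (Shioda); over a finite
field of characteristic `p` the Frobenius acts on `V(s)` as a product of Gauss sums (Weil).

* For every `m` all Hodge classes are obtained from linear subspaces, Aoki's cycles and the Hodge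
  classes of the Fermat varieties of degree `red m`, the product of the primes which divide `m`
  (times `2` if `4 ∣ m`), by joins and removal of pairs (Shioda and Katsura).
* If `m = 2 ^ a * 3 ^ b * 5 ^ c`, `2 ^ a * 3 ^ b * 7 ^ c`, `2 * 3 ^ b * 11 ^ c` or
  `2 * 3 ^ b * 13 ^ c` then all Hodge classes are obtained in this way from linear subspaces, Aoki's
  cycles and divisors on Fermat surfaces. So all Hodge classes are algebraic.
* If `p ≡ 1` modulo `m` then the Tate classes in characteristic `p` are the Hodge classes.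
-/

universe u v

namespace Pool.Agent.Results.MP_4776b1_ag.FermatHodge

open Pool.Agent.FermD

theorem result (m : ℕ) [NeZero m] (s : Multiset (ZMod m)) :
    (IsHodge s ↔ Alg (lifts m (red m)) s) ∧
    ((∃ a b c : ℕ, m = 2 ^ a * 3 ^ b * 5 ^ c ∨ m = 2 ^ a * 3 ^ b * 7 ^ c ∨
      m = 2 * 3 ^ b * 11 ^ c ∨ m = 2 * 3 ^ b * 13 ^ c) → (IsHodge s ↔ Alg (four m) s)) ∧
    (∀ {p : ℕ} (_ : p.Prime) (_ : (p : ZMod m) = 1)
      {F : Type u} [Field F] [Fintype F] [CharP F p] {K : Type v} [Field K] [CharZero K]
      (χ : MulChar F K) (_ : orderOf χ = m) {ψ : AddChar F K} (_ : ψ ≠ 1),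
      IsHodge s ↔ (0 : ZMod m) ∉ s ∧ ∃ r N : ℕ, s.card = 2 * r ∧ 0 < N ∧
        (s.map fun c => gaussSum (χ ^ c.val) ψ).prod ^ N = (Fintype.card F : K) ^ (r * N)) :=
  ⟨hodge_red s, fun ⟨_, _, _, h⟩ => hodge_four (red_mem_levels h) s,
    fun hp hp1 _ _ _ _ _ _ _ χ hχ _ hψ => hodge_iff_gauss hp hp1 χ hχ hψ s⟩

end Pool.Agent.Results.MP_4776b1_ag.FermatHodge
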