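import Pool.Agent.Stick.Gen6

/-!
# The Tate conjecture for products of the curves `y ^ Q - y = x ^ m` and for Fermat varieties

Let `F` be a finite field with `q` elements of characteristic `p` which contains the `m`-th roots
of unity, and let `χ` be a multiplicative character of `F` of order `m`.

The first cohomology of a curve `y ^ Q - y = x ^ m`, `Q` a power of `p`, is a sum of lines
`G(c)`, `c ∈ ZMod m` nonzero, on which the Frobenius of `F` acts as a Gauss sum `- g(χ ^ c)` (if `F`
contains the field with `Q` elements). So a product of lines `G(c)`, `c ∈ s`, on a product of such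
curves is spanned by a Tate class over some finite extension if and only if `s` has `2 r` elements
and `(∏ g(χ ^ c)) ^ N = q ^ (r N)` for some `N > 0`. The primitive cohomology of the Fermat variety
of degree `m` and dimension `s.card - 2` is the sum of the lines `V(s) = ⨂ G(c) (1)`,
for the tuples `s` of nonzero elements with sum zero.

We prove that these `s` are exactly the multisets in `Pool.Stick.AlgG`, and, if the sum
is zero, in `Pool.Stick.AlgF`: so the Tate classes are classes of known algebraic cycles. The
condition on the degree is satisfied by all prime powers and twice prime powers, for all `p`, and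
by the products of two prime powers such that `-1` is a power of `p` modulo both of them.
-/

namespace Pool.Agent.Results.MP_4776b1_ag.FermatTate

open Pool.Stick

theorem result {p n m : ℕ} (hp : p.Prime) [NeZero m] (hm3 : 3 ≤ m)
    (hmn : m = n ∨ Odd n ∧ m = 2 * n)
    (hn : ∀ l : ℕ, l.Prime → l ∣ n → ∃ j k : ℕ, n ∣ l ^ k * (p ^ j + 1))
    {F : Type*} [Field F] [Fintype F] [CharP F p] {K : Type*} [Field K] [CharZero K]
    (χ : MulChar F K) (hχ : orderOf χ = m) {ψ : AddChar F K} (hψ : ψ ≠ 1)
    (s : Multiset (ZMod m)) :
    (AlgG p s ↔ (0 : ZMod m) ∉ s ∧ ∃ r N : ℕ, s.card = 2 * r ∧ 0 < N ∧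
      (s.map fun c => gaussSum (χ ^ c.val) ψ).prod ^ N = (Fintype.card F : K) ^ (r * N)) ∧
    (AlgF p s ↔ AlgG p s ∧ s.sum = 0) :=
  ⟨algG_iff hp hmn hn χ hχ hψ s, algF_iff hp hm3 hmn hn χ hχ hψ s⟩

end Pool.Agent.Results.MP_4776b1_ag.FermatTate
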