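import Pool.Agent.TateOdd.E5
import Pool.Agent.TypeIV.KindFull
import Pool.Agent.Mod4.Final
import Pool.Agent.Twist.Su

/-!
# The structure of the Tate classes on the powers of an abelian variety

Let `X` be an abelian variety over a finitely generated field `k`, fix an isomorphism of `ℂ` with
an algebraic closure of `ℚ_ℓ` and let `V = V_ℓ(X) ⊗ ℂ`. Let `ψ` be the Weil pairing of a
polarisation and let `g` be the Lie algebra of the image of Galois. It is generated by a set `G` of
idempotents `e` of `End V` with `ψ(ex, y) + ψ(x, ey) = ψ(x, y)` in the following cases.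

* `k` has characteristic zero: the derivatives of the weak Hodge cocharacters (Pink 1998, Theorem
  3.18, for number fields; by Serre's specialisation argument for all finitely generated fields).
* `k` has characteristic `p` and `X` is ordinary: the projectors of `V` onto the sum of the
  eigenspaces of slope one of the Frobenius elements of closed points with ordinary reduction, for
  all `p`-adic valuations of the closure of `ℚ`, and their conjugates. By the product formula they
  span the Lie algebras of the Frobenius tori, which generate `g` by Chebotarev's theorem.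

The space `V` is semisimple (Faltings, Zarhin). The cohomology `H^{2j}(X^n)(j)` consists of the
alternating forms `f` on `V^n` in `2j` arguments, and `f` is a Tate class (over some finite
extension of `k`) if and only if
`∑ i, f(w_1, ..., e w_i, ..., w_{2j}) = j f(w_1, ..., w_{2j})` for all `e` in `G`: see `IsTate`.
The Tate classes of degree two are combinations of classes of divisors (Faltings, Zarhin).

Two irreducible subspaces `W`, `W'` of `V` are dual if there is a pairing `W × W' → ℂ(1)`: see
`Dual`. Let `W_1, ..., W_m` be irreducible subspaces, no two of them dual and none of them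
self-dual, such that every `e` in `G` has the mean rank on `W_1 ⊕ ... ⊕ W_m`, that is
`2 ∑ dim e(W_a) = ∑ dim W_a = d`. Then the volume form of `W_1 ⊕ ... ⊕ W_m` is a Tate class, and so
are its pullbacks to `V^n` by equivariant maps `V^n → W_1 ⊕ ... ⊕ W_m`. These are the *Weil classes*,
see `IsWeil`; if `V` is the sum of the eigenspaces `W_σ` of a CM field `F` contained in `End⁰(X)`,
one gets the classes in the determinants of `H^1(X)` over `F` of Weil, and for CM types the
generators found by Pohlmann and André.

We prove: if `g` is large on every irreducible subspace (see `Large`) and there are no proper twists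
(see `Untwisted`), or if `g` is as large as possible (see `Maximal`), then for all `n` and `j` every
Tate class of degree `2j` on `X^n` is a linear combination of products of classes of divisors and
one Weil class, and conversely. So the Tate conjecture for the powers of `X` is reduced to Weil
classes. Moreover the divisor classes suffice, for all powers of `X` and all degrees, if and only if
there are no `W_1, ..., W_m` as above with `m > 0`; this is a finite system of linear equations in
the numbers `dim e(W)`. The condition `Large` is satisfied by `W` in each of the following cases.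

* The dimension of `W` is one (CM type) or two.
* `W` is symplectic and its dimension is four or two modulo four (types I and II: the relative
  dimension is odd or two).
* The ranks `r = dim e(W)` exclude all other groups (type IV, `n = dim W`). Let `R` be the set of
  the ranks other than `0`, `n`. There is no factorisation `n = a b` with `a, b > 1` such that every
  `r` in `R` is divisible by `a` or by `b`, some by `a` and some by `b`, and one of the `r` in `R`
  is neither `n/2` nor `C(N-1, k-1)` with `n = C(N, k)` and `1 < k < N - 1`, the rank on the `k`-th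
  exterior power of the standard representation of `sl(N)`. For example one `r` is prime to `n > 2`.
* There is a place of bad reduction whose monodromy has rank one on `W`, no `e` being scalar on `W`
  or some `r` in `R` not being `n/2`, or odd rank and `W` is self-dual, or rank two and `W` is
  symplectic.
* `g` induces all operators on `W` that it can induce in view of a pairing, in the symplectic and in
  the linear case.

It depends only on `g` and `W`, so `X` can be a product, and the signature of type IV can be definite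
at some places: then some `e` act on some `W` as scalars. The condition `Untwisted` is void if this
does not happen for `W` that are not lines. In general it says that irreducible `W`, `W'`, not lines,
such that the representations of the algebras of trace zero are the same, because all `e` that
distinguish `W` and `W'` are scalar on both of them, are isomorphic or dual. All conditions exclude
only the orthogonal case (type III).

So the theorem applies without any condition on places of bad reduction if every geometric simple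
factor of `X` is of CM type, or of type I or II with odd relative dimension or relative dimension
two, or of type IV with `n = 2` or with multiplicities satisfying the numerical condition, and there
are no proper twists, for example if the multiplicities of type IV are not zero. (In characteristic
zero the ranks of the weak Hodge cocharacters comprise the multiplicities. There the first part of
the numerical condition must be required in the form: for every factorisation `n = a b` some
multiplicity other than `0`, `n` is divisible neither by `a` nor by `b`. If `X` is ordinary, the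
multiplicities are those of the multiplicative part of `X[p^∞]` for the places over `p` of the centre
of the endomorphism algebra.)

The idea of the proof: the operators which are skew and belong to the double commutant of `G` form
a Lie algebra `l` with centre `z`, and `[g, g] = [l, l]`. So `z` acts on the Tate classes and
its eigenvectors are semi-invariants of `l` with integral weights. Multiply a semi-invariant by the
volume forms of new copies of the `W_a` to get an invariant of `l` on a higher power, apply the first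
fundamental theorem of invariant theory, which is proved here by means of a hermitian metric on the
exterior algebra, and contract with the dual volume vectors.
-/

set_option autoImplicit false

universe u

namespace Pool.Agent.Results.MP_4776b1_ag.StructureOfTateClasses

section Defs

variable {V : Type u} [AddCommGroup V] [Module ℂ V]

/-- `U` is stable under all elements of `G`. -/
def Stable (G : Set (Module.End ℂ V)) (U : Submodule ℂ V) : Prop :=
  ∀ e ∈ G, ∀ u ∈ U, e u ∈ U

/-- `W` is irreducible: it is stable, nonzero and has no stable subspaces other than `0`, `W`. -/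
def Irred (G : Set (Module.End ℂ V)) (W : Submodule ℂ V) : Prop :=
  Stable G W ∧ W ≠ ⊥ ∧ ∀ U, Stable G U → U ≤ W → U = ⊥ ∨ U = W

/-- `V` is semisimple: every stable subspace has a stable complement. -/
def Semisimple (G : Set (Module.End ℂ V)) : Prop :=
  ∀ U, Stable G U → ∃ U', Stable G U' ∧ IsCompl U U'

/-- The Lie algebra generated by `G`: the smallest subspace of `End V` that contains `G` and is
closed under commutators. -/
def lieSpan (G : Set (Module.End ℂ V)) : Submodule ℂ (Module.End ℂ V) :=
  sInf {g | G ⊆ g ∧ ∀ a ∈ g, ∀ b ∈ g, a * b - b * a ∈ g}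

/-- There is a pairing of `W` and `W'`, not zero, of multiplier one for the elements of `G`. For
irreducible `W` and `W'` it is perfect. -/
def Dual (G : Set (Module.End ℂ V)) (W W' : Submodule ℂ V) : Prop :=
  ∃ φ : V →ₗ[ℂ] V →ₗ[ℂ] ℂ, (∀ e ∈ G, ∀ x ∈ W, ∀ y ∈ W', φ (e x) y + φ x (e y) = φ x y) ∧
    ∃ x ∈ W, ∃ y ∈ W', φ x y ≠ 0

/-- The restriction of `φ` to `W` is alternating and non-degenerate, of multiplier one. -/
def Symplectic (G : Set (Module.End ℂ V)) (W : Submodule ℂ V) (φ : V →ₗ[ℂ] V →ₗ[ℂ] ℂ) : Prop :=
  (∀ x ∈ W, φ x x = 0) ∧ (∀ x ∈ W, (∀ y ∈ W, φ x y = 0) → x = 0) ∧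
    ∀ e ∈ G, ∀ x ∈ W, ∀ y ∈ W, φ (e x) y + φ x (e y) = φ x y

/-- `r` is the rank on `W` of an element of `G`, other than zero and the dimension of `W`. -/
def IsRank (G : Set (Module.End ℂ V)) (W : Submodule ℂ V) (r : ℕ) : Prop :=
  r ≠ 0 ∧ r ≠ Module.finrank ℂ W ∧ ∃ e ∈ G, Module.finrank ℂ (W.map e) = r

/-- The ranks exclude tensor products: there is no factorisation `n = a b` of the dimension `n` of
`W` with `a, b > 1` such that every rank `r` (other than `0`, `n`) is divisible by `a` or by `b`,
some rank is divisible by `a` and some rank is divisible by `b`. And they exclude exterior powers and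
self-dual representations: some rank `r` is not `n / 2`, and `(n, r)` is not
`(C(N, k), C(N - 1, k - 1))` with `1 < k < N - 1`. -/
def Numerical (G : Set (Module.End ℂ V)) (W : Submodule ℂ V) : Prop :=
  (∀ a b : ℕ, 1 < a → 1 < b → a * b = Module.finrank ℂ W →
    ¬ ((∀ r, IsRank G W r → a ∣ r ∨ b ∣ r) ∧ (∃ r, IsRank G W r ∧ a ∣ r) ∧
      ∃ r, IsRank G W r ∧ b ∣ r)) ∧
  ∃ r, IsRank G W r ∧ 2 * r ≠ Module.finrank ℂ W ∧
    ∀ N k : ℕ, 1 < k → k < N - 1 → ¬ (Module.finrank ℂ W = N.choose k ∧
      r = (N - 1).choose (k - 1))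

/-- `e` is zero or one on `W`. -/
def Scalar (e : Module.End ℂ V) (W : Submodule ℂ V) : Prop :=
  (∀ w ∈ W, e w = 0) ∨ ∀ w ∈ W, e w = w

/-- The Lie algebra `g` generated by `G` is large on `W`: one of the following conditions holds.
* The dimension of `W` is one or two.
* `W` is symplectic and its dimension is four or congruent to two modulo four.
* There is a symplectic form on `W` such that `g` induces all skew operators on `W`.
* `g` induces all operators of trace zero on `W`.
* `g` contains an `N` with `N² = 0` whose rank on `W` is odd, `W` being self-dual, or two, `W`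
  being symplectic, or one; in the last case no `e` in `G` is scalar on `W` or some `e` in `G` has on
  `W` a rank other than `0`, `n / 2`, `n`, where `n` is the dimension of `W`.
* The numerical condition holds. -/
def Large (G : Set (Module.End ℂ V)) (W : Submodule ℂ V) : Prop :=
  (Module.finrank ℂ W = 1 ∨ Module.finrank ℂ W = 2) ∨
  ((∃ φ, Symplectic G W φ) ∧ (Module.finrank ℂ W % 4 = 2 ∨ Module.finrank ℂ W = 4)) ∨
  (∃ φ, Symplectic G W φ ∧ ∀ A : Module.End ℂ W, (∀ x y : W, φ (A x) y + φ x (A y) = 0) →
    ∃ N ∈ lieSpan G, ∀ w : W, N w = A w) ∨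
  (∀ A : Module.End ℂ W, LinearMap.trace ℂ W A = 0 → ∃ N ∈ lieSpan G, ∀ w : W, N w = A w) ∨
  (∃ N ∈ lieSpan G, N * N = 0 ∧ (Dual G W W ∧ Odd (Module.finrank ℂ (W.map N)) ∨
    (∃ φ, Symplectic G W φ) ∧ Module.finrank ℂ (W.map N) = 2 ∨
    ((∀ e ∈ G, ¬ Scalar e W) ∨ ∃ r, IsRank G W r ∧ 2 * r ≠ Module.finrank ℂ W) ∧
      Module.finrank ℂ (W.map N) = 1)) ∨
  Numerical G W

/-- There are no proper twists: let `W`, `W'` be irreducible, not lines, and let `f` be an
isomorphism of `W` and `W'` such that every `e` in `G` commutes with `f` on `W` or is scalar on both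
`W` and `W'`. Then `W` and `W'` are isomorphic or dual. -/
def Untwisted (G : Set (Module.End ℂ V)) : Prop :=
  ∀ W W', Irred G W → Irred G W' → Module.finrank ℂ W ≠ 1 → ∀ f : Module.End ℂ V,
    W.map f = W' → (∀ w ∈ W, f w = 0 → w = 0) →
    (∀ e ∈ G, (∀ w ∈ W, f (e w) = e (f w)) ∨ Scalar e W ∧ Scalar e W') →
    Dual G W W' ∨ ∃ f' : Module.End ℂ V, W.map f' = W' ∧ (∀ w ∈ W, f' w = 0 → w = 0) ∧
      ∀ e ∈ G, ∀ w ∈ W, f' (e w) = e (f' w)

/-- The derived algebra: the span of the commutators of elements of `lieSpan G`. -/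
def derivedSpan (G : Set (Module.End ℂ V)) : Submodule ℂ (Module.End ℂ V) :=
  Submodule.span ℂ {z | ∃ a ∈ lieSpan G, ∃ b ∈ lieSpan G, z = a * b - b * a}

/-- The Lie algebra `g` generated by `G` is maximal: the self-dual irreducible subspaces are
symplectic, and the derived algebra contains all operators `D` which are skew with respect to `ψ`,
commute with all operators commuting with `G` and have trace zero on every irreducible subspace. -/
def Maximal (ψ : V →ₗ[ℂ] V →ₗ[ℂ] ℂ) (G : Set (Module.End ℂ V)) : Prop :=
  (∀ W, Irred G W → Dual G W W → ∃ φ, Symplectic G W φ) ∧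
  ∀ D : Module.End ℂ V, (∀ x y, ψ (D x) y + ψ x (D y) = 0) →
    (∀ T : Module.End ℂ V, (∀ e ∈ G, e * T = T * e) → D * T = T * D) →
    (∀ W, Irred G W → ∀ A : Module.End ℂ W, (∀ w : W, (A w : V) = D w) →
      LinearMap.trace ℂ W A = 0) → D ∈ derivedSpan G

/-- Tate classes of degree `2 j` on the `n`-th power: alternating forms `f` on `V ^ n` with `2 j`
arguments on which every `e` in `G`, acting diagonally on `V ^ n` and as a derivation on forms, has
the eigenvalue `j`. -/
def IsTate (G : Set (Module.End ℂ V)) (n j : ℕ) (f : (Fin n → V) [⋀^Fin (2 * j)]→ₗ[ℂ] ℂ) : Prop :=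
  ∀ e ∈ G, ∀ w : Fin (2 * j) → Fin n → V,
    ∑ i, f (Function.update w i fun a => e (w i a)) = j * f w

/-- Tate classes of degree two on the `n`-th power, as alternating bilinear forms on `V ^ n`. -/
def IsDivisor (G : Set (Module.End ℂ V)) (n : ℕ)
    (ω : (Fin n → V) →ₗ[ℂ] (Fin n → V) →ₗ[ℂ] ℂ) : Prop :=
  (∀ x, ω x x = 0) ∧ ∀ e ∈ G, ∀ x y, ω (fun a => e (x a)) y + ω x (fun a => e (y a)) = ω x y

/-- The linear combinations of products of `j` Tate classes of degree two, in the space of all
alternating forms with `2 j` arguments on the `n`-th power. -/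
def products (G : Set (Module.End ℂ V)) (n j : ℕ) :
    Submodule ℂ ((Fin n → V) [⋀^Fin (2 * j)]→ₗ[ℂ] ℂ) :=
  Submodule.span ℂ {η | ∃ ω : Fin j → (Fin n → V) →ₗ[ℂ] (Fin n → V) →ₗ[ℂ] ℂ,
    (∀ i, IsDivisor G n (ω i)) ∧ ∀ w : Fin (2 * j) → Fin n → V,
      η w = ∑ σ : Equiv.Perm (Fin (2 * j)), ((Equiv.Perm.sign σ : ℤ) : ℂ) *
        ∏ i : Fin j, ω i (w (σ ⟨2 * i, by omega⟩)) (w (σ ⟨2 * i + 1, by omega⟩))}

/-- `W 1, ..., W m` are irreducible, no two of them are dual, none is self-dual, and every `e` in
`G` has the mean rank on their sum. -/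
def Balanced (G : Set (Module.End ℂ V)) (m : ℕ) (W : Fin m → Submodule ℂ V) : Prop :=
  (∀ a, Irred G (W a)) ∧ (∀ a b, ¬ Dual G (W a) (W b)) ∧
    ∀ e ∈ G, 2 * ∑ a, Module.finrank ℂ ((W a).map e) = ∑ a, Module.finrank ℂ (W a)

/-- Weil classes of degree `d` on the `n`-th power: pullbacks of alternating forms of degree
`d = dim (W 1 ⊕ ... ⊕ W m)` by equivariant linear maps `h : V ^ n → W 1 ⊕ ... ⊕ W m ⊆ V ^ m`, where
the family `W` is balanced. -/
def IsWeil (G : Set (Module.End ℂ V)) (n d : ℕ) (θ : (Fin n → V) [⋀^Fin d]→ₗ[ℂ] ℂ) : Prop :=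
  ∃ (m : ℕ) (W : Fin m → Submodule ℂ V) (h : (Fin n → V) →ₗ[ℂ] (Fin m → V))
    (vol : (Fin m → V) [⋀^Fin d]→ₗ[ℂ] ℂ), Balanced G m W ∧ d = ∑ a, Module.finrank ℂ (W a) ∧
    (∀ w a, h w a ∈ W a) ∧ (∀ e ∈ G, ∀ w a, h (fun b => e (w b)) a = e (h w a)) ∧
    θ = vol.compLinearMap h

/-- The linear combinations of products of some Tate classes of degree two and one Weil class, in
the space of all alternating forms with `2 j` arguments on the `n`-th power. -/
def weilProducts (G : Set (Module.End ℂ V)) (n j : ℕ) :
    Submodule ℂ ((Fin n → V) [⋀^Fin (2 * j)]→ₗ[ℂ] ℂ) :=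
  Submodule.span ℂ {η | ∃ (l d : ℕ) (_ : 2 * l + d = 2 * j)
    (ω : Fin l → (Fin n → V) →ₗ[ℂ] (Fin n → V) →ₗ[ℂ] ℂ) (θ : (Fin n → V) [⋀^Fin d]→ₗ[ℂ] ℂ),
    (∀ i, IsDivisor G n (ω i)) ∧ IsWeil G n d θ ∧ ∀ w : Fin (2 * j) → Fin n → V,
      η w = ∑ σ : Equiv.Perm (Fin (2 * j)), ((Equiv.Perm.sign σ : ℤ) : ℂ) *
        ((∏ i : Fin l, ω i (w (σ ⟨2 * i, by omega⟩)) (w (σ ⟨2 * i + 1, by omega⟩))) *
          θ fun i : Fin d => w (σ ⟨2 * l + i, by omega⟩))}

end Defs

open Pool.Agent.TypeIV.MX Pool.Agent.Twist in
/-- The condition `Large` implies the condition used in the proof. -/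
theorem kind {V : Type u} [AddCommGroup V] [Module ℂ V] [FiniteDimensional ℂ V]
    {G : Set (Module.End ℂ V)} (hidem : ∀ e ∈ G, e * e = e) (hss : Semisimple G)
    {W : Submodule ℂ V} (hW : Irred G W) (h : Large G W) : KSp G W ∨ KTr G W := by
  have hsd : Dual G W W → Pool.Agent.TypeIV.SelfDual G W := by
    rintro ⟨φ, hφ, h0⟩
    exact ⟨φ, Pool.Agent.TateOdd.Inv2.nd hφ hW hW.1 h0, hφ⟩
  rcases h with (h | h) | ⟨⟨φ, halt, hnd, hφ⟩, h4⟩ | ⟨φ, ⟨halt, hnd, hφ⟩, hA⟩ | hA |
    ⟨N, hN, hNN, ⟨hd, hodd⟩ | ⟨⟨φ, halt, hnd, hφ⟩, h2⟩ |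
      ⟨hns | ⟨r, ⟨h0, h1, e, he, rfl⟩, hr⟩, hone⟩⟩ | ⟨h1, r, hr, hr2, hr3⟩
  · exact Or.inr (ktr_of_line h)
  · exact Or.inr (ktr_of_two hidem hss hW h)
  · exact Or.inl (Pool.Agent.Mod4.ksp_of_mod4 hidem hss hW halt hnd hφ h4)
  · left
    refine ⟨φ.compl₁₂ W.subtype W.subtype, fun x => halt x x.2,
      fun x hx => Subtype.ext (hnd x x.2 fun y hy => hx ⟨y, hy⟩), ?_, fun u v => ?_⟩
    · intro e he u u₂ v v₂ hu hv
      change φ u₂ v + φ u v₂ = φ u v
      rw [hu, hv]
      exact hφ e he u u.2 v v.2
    · have hs : ∀ x ∈ W, ∀ y ∈ W, φ x y = -φ y x := by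
        intro x hx y hy
        have h3 := halt (x + y) (W.add_mem hx hy)
        simp only [map_add, LinearMap.add_apply, halt x hx, halt y hy, zero_add, add_zero] at h3
        linear_combination h3
      obtain ⟨N, hN, hNA⟩ := hA (Pool.Agent.OddRank.mm (φ.compl₁₂ W.subtype W.subtype) u v) (by
        intro x y
        rw [Pool.Agent.OddRank.mm_apply, Pool.Agent.OddRank.mm_apply]
        simp only [LinearMap.compl₁₂_apply, Submodule.subtype_apply, Submodule.coe_add,
          Submodule.coe_smul, map_add, map_smul, LinearMap.add_apply, LinearMap.smul_apply,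
          smul_eq_mul]
        rw [hs x x.2 u u.2, hs x x.2 v v.2]
        ring)
      exact ⟨N, hN, fun w => (hNA w).symm⟩
  · right
    intro Z hZ
    obtain ⟨N, hN, hNA⟩ := hA Z hZ
    exact ⟨N, hN, fun w => (hNA w).symm⟩
  · exact Or.inl (ksp_of_odd hidem hss hW (hsd hd) hN hNN hodd)
  · exact Or.inl (ksp_of_two hidem hss hW halt hnd hφ hN hNN h2)
  · by_cases hd : Pool.Agent.TypeIV.SelfDual G W
    · exact Or.inl (ksp_of_odd hidem hss hW hd hN hNN (by rw [hone]; exact odd_one))
    · refine Or.inr (ktr_of_ksl (ksl_of_one hidem hss hW (fun e he => ?_) hd hN hNN hone))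
      have h := hns e he
      simp only [Scalar] at h
      push Not at h
      exact h
  · exact Or.inr (ktr_of_one hidem hss hW hN hNN hone he h0 h1 hr)
  · refine Or.inr (ktr_of_num hidem hss hW ⟨fun a b ha hb hab h2 h3 h4 => ?_, r, hr, hr2,
      fun N k hk hkN hN hrk => ?_⟩)
    · exact h1 a b ha hb hab ⟨h2, h3, h4⟩
    · exact hr3 N k (by omega) (by omega) ⟨hN, hrk⟩

open Pool.Agent.Twist in
/-- The condition on twists. -/
theorem noTwist {V : Type u} [AddCommGroup V] [Module ℂ V] [FiniteDimensional ℂ V]
    {G : Set (Module.End ℂ V)} (h : Untwisted G) : NoTwist G := by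
  rintro W W' hW hW' h1 ⟨f, hf, hinj, hc⟩
  rcases h W W' hW hW' h1 f hf hinj hc with h2 | ⟨f', hf', hinj', hc'⟩
  · exact Or.inr h2
  · left
    have hfW : ∀ w ∈ W, f' w ∈ W' := fun w hw => hf' ▸ ⟨w, hw, rfl⟩
    refine ⟨(f'.restrict hfW : W →ₗ[ℂ] W'), ?_, ?_, ?_⟩
    · intro e he u v huv
      change f' v = e (f' u)
      rw [huv, hc' e he u u.2]
    · rw [injective_iff_map_eq_zero]
      intro w hw
      exact Subtype.ext (hinj' w w.2 (congrArg Subtype.val hw))
    · rintro ⟨y, hy⟩
      rw [← hf'] at hy
      obtain ⟨w, hw, rfl⟩ := hy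
      exact ⟨⟨w, hw⟩, rfl⟩

/-- **The structure of Tate classes.** If the Lie algebra is large on every irreducible subspace and
there are no proper twists, the Tate classes on the powers are the linear combinations of products of Tate classes of degree two
and one Weil class, and they are all linear combinations of products of Tate classes of degree two
if and only if there is no balanced family of irreducible subspaces. -/
theorem result {V : Type u} [AddCommGroup V] [Module ℂ V] [FiniteDimensional ℂ V]
    (ψ : V →ₗ[ℂ] V →ₗ[ℂ] ℂ) (halt : ∀ x, ψ x x = 0) (hnd : ∀ x, (∀ y, ψ x y = 0) → x = 0)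
    (G : Set (Module.End ℂ V)) (hne : G.Nonempty) (hidem : ∀ e ∈ G, e * e = e)
    (hψ : ∀ e ∈ G, ∀ x y, ψ (e x) y + ψ x (e y) = ψ x y) (hss : Semisimple G)
    (hlarge : (∀ W, Irred G W → Large G W) ∧ Untwisted G ∨ Maximal ψ G) :
    (∀ n j f, IsTate G n j f ↔ f ∈ weilProducts G n j) ∧
      ((∀ n j f, IsTate G n j f → f ∈ products G n j) ↔
        ¬ ∃ (m : ℕ) (W : Fin m → Submodule ℂ V), 0 < m ∧ Balanced G m W) := by
  have U : Pool.Agent.TateOdd.Su ψ G := by
    rcases hlarge with ⟨h, ht⟩ | ⟨h1, h2⟩
    · exact Pool.Agent.Twist.su_of_kind' halt hnd hne hidem hψ hss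
        (fun W hW => kind hidem hss hW (h W hW)) (noTwist ht)
    · exact ⟨halt, hnd, hne, hidem, hψ, hss, h1, fun D hD => h2 D hD.1 hD.2.1 hD.2.2⟩
  have hT : ∀ n j f, IsTate G n j f ↔
      ∀ e ∈ G, Pool.Agent.GHCFull.der (Pool.Agent.TateOdd.dg n e) (2 * j) f = (j : ℂ) • f := by
    intro n j f
    refine forall_congr' fun e => forall_congr' fun he => ?_
    constructor
    · intro h
      ext w
      rw [Pool.Agent.GHCFull.der_apply, AlternatingMap.smul_apply, smul_eq_mul]
      exact h w
    · intro h w
      have h1 := DFunLike.congr_fun h w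
      rw [Pool.Agent.GHCFull.der_apply, AlternatingMap.smul_apply, smul_eq_mul] at h1
      exact h1
  have hD : ∀ n (ω : (Fin n → V) →ₗ[ℂ] (Fin n → V) →ₗ[ℂ] ℂ),
      Pool.Agent.TateOdd.Div (Pool.Agent.TateOdd.dg n '' G) ω ↔ IsDivisor G n ω := by
    intro n ω
    constructor
    · rintro ⟨h1, h2⟩
      exact ⟨h1, fun e he => h2 _ ⟨e, he, rfl⟩⟩
    · rintro ⟨h1, h2⟩
      refine ⟨h1, ?_⟩
      rintro _ ⟨e, he, rfl⟩
      exact h2 e he
  refine ⟨fun n j f => ?_, ?_⟩
  · rw [hT, U.tate_iff n j f]
    have h1 : {η | Pool.Agent.TateOdd.WeilTerm G n (2 * j) η} =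
        {η : (Fin n → V) [⋀^Fin (2 * j)]→ₗ[ℂ] ℂ | ∃ (l d : ℕ) (_ : 2 * l + d = 2 * j)
        (ω : Fin l → (Fin n → V) →ₗ[ℂ] (Fin n → V) →ₗ[ℂ] ℂ) (θ : (Fin n → V) [⋀^Fin d]→ₗ[ℂ] ℂ),
        (∀ i, IsDivisor G n (ω i)) ∧ IsWeil G n d θ ∧ ∀ w : Fin (2 * j) → Fin n → V,
        η w = ∑ σ : Equiv.Perm (Fin (2 * j)), ((Equiv.Perm.sign σ : ℤ) : ℂ) *
          ((∏ i : Fin l, ω i (w (σ ⟨2 * i, by omega⟩)) (w (σ ⟨2 * i + 1, by omega⟩))) *
            θ fun i : Fin d => w (σ ⟨2 * l + i, by omega⟩))} := by
      ext η
      constructor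
      · rintro ⟨l, m, d, hk, ω, W, h, vol, h1, h2, h3, h4, h5, h6, h7, h8⟩
        exact ⟨l, d, hk, ω, vol.compLinearMap h, fun i => (hD n _).1 (h1 i),
          ⟨m, W, h, vol, ⟨h2, h3, h5⟩, h4, h6, fun e he w a => congrFun (h7 e he w) a, rfl⟩, h8⟩
      · rintro ⟨l, d, hk, ω, θ, h1, ⟨m, W, h, vol, ⟨h2, h3, h5⟩, h4, h6, h7, rfl⟩, h8⟩
        exact ⟨l, m, d, hk, ω, W, h, vol, fun i => (hD n _).2 (h1 i), h2, h3, h4, h5, h6,
          fun e he w => funext fun a => h7 e he w a, h8⟩
    rw [h1]
    rfl
  · have h2 := U.criterion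
    have h3 : (∀ n j f, IsTate G n j f → f ∈ products G n j) ↔
        ∀ (n j : ℕ) (f : Pool.Agent.GHCFull.AForm (Fin n → V) (2 * j)),
          (∀ e ∈ G, Pool.Agent.GHCFull.der (Pool.Agent.TateOdd.dg n e) (2 * j) f = (j : ℂ) • f) →
          f ∈ Pool.Agent.TateOdd.prods
            (Pool.Agent.TateOdd.Div (Pool.Agent.TateOdd.dg n '' G)) j := by
      refine forall_congr' fun n => forall_congr' fun j => forall_congr' fun f => ?_
      rw [hT]
      have h4 : products G n j = Pool.Agent.TateOdd.prods
          (Pool.Agent.TateOdd.Div (Pool.Agent.TateOdd.dg n '' G)) j := by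
        unfold products Pool.Agent.TateOdd.prods
        congr 1
        ext η
        constructor
        · rintro ⟨ω, hω, hη⟩
          exact ⟨ω, fun i => (hD n _).2 (hω i), hη⟩
        · rintro ⟨ω, hω, hη⟩
          exact ⟨ω, fun i => (hD n _).1 (hω i), hη⟩
      rw [h4]
    rw [h3, h2]
    constructor
    · rintro hno ⟨m, W, hm, h4, h5, h6⟩
      exact hno m W hm h4 h5 h6
    · intro hno m W hm h4 h5 h6
      exact hno ⟨m, W, hm, h4, h5, h6⟩

end Pool.Agent.Results.MP_4776b1_ag.StructureOfTateClasses
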