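import Pool.Agent.Exo5.Key
import Pool.Agent.Exo5.Ext

/-!
# Tate classes on abelian varieties of dimension at most five over finite fields

Let `A` be an abelian variety of dimension at most five over the field with `q = p ^ a` elements,
`W = H^1(A)` with coefficients in an algebraically closed field `K` of characteristic zero, `F` the
Frobenius and `P` its characteristic polynomial; assume that no quotient of two different
eigenvalues is a root of unity (always true over a finite extension of the ground field). The
theorem says that all elements of `⋀ ^ (2 i) W = H^(2 i)(A)` on which `F ^ m` acts as `q ^ (i m)`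
(the Tate classes over the extension of degree `m`) are linear combinations of products of

* elements of `⋀ ^ 2 W` on which `F` acts as `q` (the divisor classes, by the theorem of Tate),
* Weil classes for imaginary quadratic fields `E` (`IsWeilType`) in `⋀ ^ 4 W`: the polynomial
  `Q Q̄` of the definition is the characteristic polynomial of Frobenius of a factor of `A` of
  dimension four on which `E` acts, and the class lies in `⋀_E ^ 4` of its `H^1`,
* classes in `⋀ ^ 4 W` of the following kind (`IsDFourType`): `A` is isogenous to `A₁ × A₂ × E`
  with a supersingular elliptic curve `E` all of whose endomorphisms are defined over the ground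
  field, a simple abelian surface `A₁` with the slopes `0, 1/2, 1/2, 1` whose Frobenius generates a
  quartic field which is not normal, an ordinary simple abelian surface `A₂`, and the class is a
  product of four eigenvectors, two in `H^1(A₁)`, one in `H^1(A₂)`, one in `H^1(E)`.
-/

set_option autoImplicit false

namespace Pool.Agent.Results.MP_4776b1_ag.TateDimFive

open Polynomial Pool.Agent.Exo5

/-- **The exotic Tate classes on abelian varieties of dimension at most five.** -/
theorem result {p : ℕ} [Fact p.Prime] {a : ℕ} (ha : 0 < a) (P : ℤ[X]) (hP : IsFrobPoly P p a)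
    (hdeg : P.natDegree ≤ 10) (hneat : Neat P)
    {K W : Type} [Field K] [IsAlgClosed K] [CharZero K] [AddCommGroup W] [Module K W]
    [FiniteDimensional K W] (F : Module.End K W) (hF : ⨆ μ : K, F.eigenspace μ = ⊤)
    (hchar : F.charpoly = P.map (Int.castRingHom K)) (i m : ℕ) (hm : 0 < m)
    (x : ExteriorAlgebra K W) (hx : x ∈ ⋀[K]^(2 * i) W)
    (hxF : ExteriorAlgebra.map (F ^ m) x = ((p ^ a : ℕ) : K) ^ (i * m) • x) :
    x ∈ Algebra.adjoin K
      ({y | y ∈ ⋀[K]^2 W ∧ ExteriorAlgebra.map F y = ((p ^ a : ℕ) : K) • y} ∪
        {y | IsClassOf F (IsWeilType P p a m) y} ∪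
        {y | IsClassOf F (IsDFourType P p a m) y}) := by
  classical
  have hq : ((p ^ a : ℕ) : K) ≠ 0 := by
    exact_mod_cast (pow_pos (Fact.out : p.Prime).pos a).ne'
  have h := generated_of_key F hF hq m (fun M => IsWeilType P p a m M ∨ IsDFourType P p a m M)
    (fun i M hM hc hprod => by
      rw [hchar] at hM
      exact key hP ha hdeg hneat hm i M hM hc hprod) i hx hxF
  refine Algebra.adjoin_mono ?_ h
  rintro y (hy | ⟨l, h1, h2 | h2, h3⟩)
  · exact Or.inl (Or.inl hy)
  · exact Or.inl (Or.inr ⟨l, h1, h2, h3⟩)
  · exact Or.inr ⟨l, h1, h2, h3⟩

end Pool.Agent.Results.MP_4776b1_ag.TateDimFive
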